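import Mathlib

open Set Filter Topology

namespace Pool.Agent.Results.MP_b19ca0_gt.No

/-- the open unit disk -/
def M : Set (ℝ × ℝ) := {x | x.1 ^ 2 + x.2 ^ 2 < 1}

/-- `|y - x|^2` -/
def qA (x y : ℝ × ℝ) : ℝ := (y.1 - x.1) ^ 2 + (y.2 - x.2) ^ 2
/-- `<x, y - x>` -/
def qB (x y : ℝ × ℝ) : ℝ := x.1 * (y.1 - x.1) + x.2 * (y.2 - x.2)
/-- `|x|^2 - 1` -/
def qC (x : ℝ × ℝ) : ℝ := x.1 ^ 2 + x.2 ^ 2 - 1

/-- the roots (`e = 1`, `e = -1`) of `|x + l (y - x)|^2 = 1`: affine coordinates of the points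
`a`, `b` on the line on which `x` has coordinate `0` and `y` has coordinate `1` -/
noncomputable def root (e : ℝ) (x y : ℝ × ℝ) : ℝ :=
  (-qB x y + e * √(qB x y ^ 2 - qA x y * qC x)) / qA x y

/-- Hilbert metric: absolute value of the logarithm of the cross-ratio -/
noncomputable def h (x y : ℝ × ℝ) : ℝ :=
  |Real.log (((0 - root 1 x y) * (1 - root (-1) x y)) / ((0 - root (-1) x y) * (1 - root 1 x y)))|

/-- taxicab metric -/
def m (x y : ℝ × ℝ) : ℝ := |x.1 - y.1| + |x.2 - y.2|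

/-- the sum metric -/
noncomputable def d (x y : ℝ × ℝ) : ℝ := h x y + m x y

lemma root_ne {e : ℝ} (he : e ^ 2 = 1) {x y : ℝ × ℝ} (hx : x ∈ M) (hy : y ∈ M)
    (hA : 0 < qA x y) : root e x y ≠ 0 ∧ 1 - root e x y ≠ 0 := by
  have hC : qC x < 0 := by simp only [M, mem_ofPred_eq] at hx; unfold qC; linarith
  have hD : 0 ≤ qB x y ^ 2 - qA x y * qC x := by nlinarith [sq_nonneg (qB x y)]
  have hs := Real.sq_sqrt hD
  have key : qA x y * root e x y ^ 2 + 2 * qB x y * root e x y + qC x = 0 := by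
    unfold root
    field_simp
    linear_combination (√(qB x y ^ 2 - qA x y * qC x)) ^ 2 * he + hs
  constructor
  · intro h0; rw [h0] at key; linarith
  · intro h0
    have h1 : root e x y = 1 := by linarith
    rw [h1] at key
    simp only [M, mem_ofPred_eq] at hy
    unfold qA qB qC at key
    nlinarith

lemma cont_d {x y : ℝ × ℝ} (hx : x ∈ M) (hy : y ∈ M) (hA : 0 < qA x y) :
    ContinuousAt (fun p : (ℝ × ℝ) × (ℝ × ℝ) => d p.1 p.2) (x, y) := by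
  have hr : ∀ e : ℝ, ContinuousAt (fun p : (ℝ × ℝ) × (ℝ × ℝ) => root e p.1 p.2) (x, y) := by
    intro e
    unfold root
    refine ContinuousAt.div ?_ ?_ hA.ne'
    · unfold qA qB qC; fun_prop
    · unfold qA; fun_prop
  obtain ⟨a1, a2⟩ := root_ne (e := 1) (by norm_num) hx hy hA
  obtain ⟨b1, b2⟩ := root_ne (e := -1) (by norm_num) hx hy hA
  have h1 := hr 1
  have h2 := hr (-1)
  have n1 : (0 - root (-1) x y) * (1 - root 1 x y) ≠ 0 := mul_ne_zero (by simpa using b1) a2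
  have n2 : (0 - root 1 x y) * (1 - root (-1) x y) ≠ 0 := mul_ne_zero (by simpa using a1) b2
  unfold d h m
  refine ContinuousAt.add (ContinuousAt.abs (ContinuousAt.log
    (ContinuousAt.div (by fun_prop) (by fun_prop) n1) (div_ne_zero n2 n1))) (by fun_prop)

lemma d_axis {a b : ℝ} (ha : -1 < a) (hab : a < b) (hb : b < 1) :
    d (a, 0) (b, 0) = Real.log ((1 - a) * (1 + b) / ((1 + a) * (1 - b))) + (b - a) := by
  have h0 : 0 < b - a := by linarith
  have hs : √(qB (a, 0) (b, 0) ^ 2 - qA (a, 0) (b, 0) * qC (a, 0)) = b - a := by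
    rw [← Real.sqrt_sq h0.le]; congr 1; simp only [qA, qB, qC]; ring
  have r1 : root 1 (a, 0) (b, 0) = (1 - a) / (b - a) := by
    rw [root, hs]; simp only [qA, qB]; field_simp; ring
  have r2 : root (-1) (a, 0) (b, 0) = (-1 - a) / (b - a) := by
    rw [root, hs]; simp only [qA, qB]; field_simp; ring
  have h1 : 0 < 1 + a := by linarith
  have h2 : 0 < 1 - b := by linarith
  have e : ((0 - (1 - a) / (b - a)) * (1 - (-1 - a) / (b - a))) /
      ((0 - (-1 - a) / (b - a)) * (1 - (1 - a) / (b - a))) =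
      (1 - a) * (1 + b) / ((1 + a) * (1 - b)) := by
    have e1 : 1 - (-1 - a) / (b - a) = (1 + b) / (b - a) := by field_simp; ring
    have e2 : 1 - (1 - a) / (b - a) = -(1 - b) / (b - a) := by field_simp; ring
    have e3 : 0 - (-1 - a) / (b - a) = (1 + a) / (b - a) := by field_simp; ring
    rw [e1, e2, e3]; field_simp; ring
  rw [d, h, r1, r2, e, m, abs_of_nonneg (Real.log_nonneg _)]
  · simp [abs_of_neg (by linarith : a - b < 0)]
  · rw [le_div_iff₀ (by positivity)]; nlinarith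

lemma d_vert {x s : ℝ} (hs : 0 < s) (hw : s < √(1 - x ^ 2)) :
    d (x, s) (x, -s) = 2 * Real.log ((√(1 - x ^ 2) + s) / (√(1 - x ^ 2) - s)) + 2 * s := by
  set w := √(1 - x ^ 2) with hwd
  have hw0 : 0 < w := hs.trans hw
  have hw2 : w ^ 2 = 1 - x ^ 2 := Real.sq_sqrt (Real.sqrt_pos.1 hw0).le
  have hq : √(qB (x, s) (x, -s) ^ 2 - qA (x, s) (x, -s) * qC (x, s)) = 2 * s * w := by
    rw [← Real.sqrt_sq (by positivity : 0 ≤ 2 * s * w)]; congr 1
    simp only [qA, qB, qC]; rw [mul_pow, hw2]; ring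
  have r1 : root 1 (x, s) (x, -s) = (s + w) / (2 * s) := by
    rw [root, hq]; simp only [qA, qB]; field_simp; ring
  have r2 : root (-1) (x, s) (x, -s) = (s - w) / (2 * s) := by
    rw [root, hq]; simp only [qA, qB]; field_simp; ring
  have h2 : 0 < w - s := by linarith
  have e : ((0 - (s + w) / (2 * s)) * (1 - (s - w) / (2 * s))) /
      ((0 - (s - w) / (2 * s)) * (1 - (s + w) / (2 * s))) = ((w + s) / (w - s)) ^ 2 := by
    have e1 : 1 - (s - w) / (2 * s) = (w + s) / (2 * s) := by field_simp; ring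
    have e2 : 1 - (s + w) / (2 * s) = -(w - s) / (2 * s) := by field_simp; ring
    have e3 : 0 - (s - w) / (2 * s) = (w - s) / (2 * s) := by field_simp; ring
    rw [e1, e2, e3]; field_simp; ring
  rw [d, h, r1, r2, e, m, Real.log_pow, abs_of_nonneg]
  · simp [abs_of_pos (by linarith : 0 < s + s)]; ring
  · refine mul_nonneg (by norm_num) (Real.log_nonneg ?_)
    rw [le_div_iff₀ h2]; linarith

lemma d_mirror (a b c e : ℝ) : d (a, -b) (c, -e) = d (a, b) (c, e) := by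
  have h1 : qA (a, -b) (c, -e) = qA (a, b) (c, e) := by simp only [qA]; ring
  have h2 : qB (a, -b) (c, -e) = qB (a, b) (c, e) := by simp only [qB]; ring
  have h3 : qC (a, -b) = qC (a, b) := by simp only [qC]; ring
  have h4 : |-b - -e| = |b - e| := by rw [← abs_neg]; congr 1; ring
  simp only [d, h, root, m, h1, h2, h3, h4]

noncomputable def phi (t θ s : ℝ) : ℝ :=
  d (4 / 5, 0) (4 / 5 + θ * t, θ * s) - d (4 / 5 + θ * t, θ * s) (4 / 5 + t, s)

lemma phi_cont {t θ s : ℝ} (ht : 0 < t) (ht1 : t ≤ 1 / 1000) (h0 : 0 < θ) (h1 : θ < 1)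
    (hs : |s| ≤ 1 / 2) : ContinuousAt (fun p : ℝ × ℝ => phi t p.1 p.2) (θ, s) := by
  have hs2 : s ^ 2 ≤ 1 / 4 := by rw [← sq_abs]; nlinarith [abs_nonneg s]
  have m1 : ((4 / 5, 0) : ℝ × ℝ) ∈ M := by simp [M]; norm_num
  have k1 : 0 < θ * t := by positivity
  have k2 : θ * t < t := by nlinarith
  have k3 : (θ * s) ^ 2 ≤ 1 / 4 := by
    rw [mul_pow]; nlinarith [sq_nonneg s, mul_nonneg (sq_nonneg s) (by nlinarith : 0 ≤ 1 - θ ^ 2)]
  have m2 : ((4 / 5 + θ * t, θ * s) : ℝ × ℝ) ∈ M := by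
    simp only [M, mem_ofPred_eq]; nlinarith
  have m3 : ((4 / 5 + t, s) : ℝ × ℝ) ∈ M := by
    simp only [M, mem_ofPred_eq]; nlinarith
  have c1 := (cont_d m1 m2 (by simp only [qA]; nlinarith [sq_nonneg (θ * s - 0)])).comp_of_eq
    (f := fun p : ℝ × ℝ => (((4 / 5, 0) : ℝ × ℝ), ((4 / 5 + p.1 * t, p.1 * p.2) : ℝ × ℝ)))
    (x := (θ, s)) (by fun_prop) rfl
  have c2 := (cont_d m2 m3 (by simp only [qA]; nlinarith [sq_nonneg (s - θ * s)])).comp_of_eq
    (f := fun p : ℝ × ℝ => (((4 / 5 + p.1 * t, p.1 * p.2) : ℝ × ℝ), ((4 / 5 + t, p.2) : ℝ × ℝ)))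
    (x := (θ, s)) (by fun_prop) rfl
  exact c1.sub c2

lemma phi_zero {t θ : ℝ} (ht : 0 < t) (ht1 : t ≤ 1 / 1000) (h0 : 0 < θ) (h1 : θ < 1) :
    phi t θ 0 = (2 * θ - 1) * t - Real.log
      ((9 / 5) * (9 / 5 + t) * (1 / 5 - θ * t) ^ 2 /
        ((1 / 5) * (1 / 5 - t) * (9 / 5 + θ * t) ^ 2)) := by
  have k1 : 0 < θ * t := by positivity
  have k2 : θ * t < t := by nlinarith
  rw [phi, mul_zero, d_axis (by norm_num) (by linarith) (by linarith),
    d_axis (by linarith) (by linarith) (by linarith)]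
  have p1 : 0 < 1 / 5 - θ * t := by linarith
  have p2 : 0 < 1 / 5 - t := by linarith
  have e : (9 / 5) * (9 / 5 + t) * (1 / 5 - θ * t) ^ 2 /
        ((1 / 5) * (1 / 5 - t) * (9 / 5 + θ * t) ^ 2) =
      ((1 / 5 - θ * t) * (9 / 5 + t) / ((9 / 5 + θ * t) * (1 / 5 - t))) /
      ((1 / 5) * (9 / 5 + θ * t) / ((9 / 5) * (1 / 5 - θ * t))) := by
    field_simp
  rw [e, Real.log_div (x := (1 / 5 - θ * t) * (9 / 5 + t) / ((9 / 5 + θ * t) * (1 / 5 - t)))
    (by positivity) (by positivity)]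
  have f1 : (1:ℝ) - 4 / 5 = 1 / 5 := by norm_num
  have f2 : (1:ℝ) + 4 / 5 = 9 / 5 := by norm_num
  have f3 : 1 + (4 / 5 + θ * t) = 9 / 5 + θ * t := by ring
  have f4 : 1 - (4 / 5 + θ * t) = 1 / 5 - θ * t := by ring
  have f5 : 1 + (4 / 5 + t) = 9 / 5 + t := by ring
  have f6 : 1 - (4 / 5 + t) = 1 / 5 - t := by ring
  rw [f1, f2, f3, f4, f5, f6]; ring

lemma phi_neg {t : ℝ} (ht : 0 < t) (ht1 : t ≤ 1 / 1000) : phi t (1 / 2 + 9 / 20 * t) 0 < 0 := by
  rw [phi_zero ht ht1 (by positivity) (by linarith)]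
  set θ := 1 / 2 + 9 / 20 * t with hθ
  have k1 : 0 < θ * t := by positivity
  have k2 : θ * t < t := by nlinarith
  have p1 : 0 < 1 / 5 - θ * t := by linarith
  have p2 : 0 < 1 / 5 - t := by linarith
  have := Real.one_sub_inv_le_log_of_pos (x := (9 / 5) * (9 / 5 + t) * (1 / 5 - θ * t) ^ 2 /
        ((1 / 5) * (1 / 5 - t) * (9 / 5 + θ * t) ^ 2)) (by positivity)
  rw [inv_div] at this
  have h2 : ((1 / 5) * (1 / 5 - t) * (9 / 5 + θ * t) ^ 2) /
      ((9 / 5) * (9 / 5 + t) * (1 / 5 - θ * t) ^ 2) < 1 - (2 * θ - 1) * t := by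
    rw [div_lt_iff₀ (by positivity), ← sub_pos]
    have e : (1 - (2 * θ - 1) * t) * ((9 / 5) * (9 / 5 + t) * (1 / 5 - θ * t) ^ 2) -
        (1 / 5) * (1 / 5 - t) * (9 / 5 + θ * t) ^ 2 = t ^ 2 * (221 / 6250 + t * (3073 / 1250) +
        t ^ 2 * (41697 / 25000) - t ^ 3 * (5103 / 5000) - t ^ 4 * (131949 / 100000) -
        t ^ 5 * (6561 / 20000)) := by
      rw [hθ]; ring
    rw [e]
    have a3 : t ^ 3 ≤ (1 / 1000) ^ 3 := by gcongr
    have a4 : t ^ 4 ≤ (1 / 1000) ^ 4 := by gcongr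
    have a5 : t ^ 5 ≤ (1 / 1000) ^ 5 := by gcongr
    refine mul_pos (by positivity) ?_
    nlinarith [sq_nonneg t]
  linarith

lemma phi_pos {t : ℝ} (ht : 0 < t) (ht1 : t ≤ 1 / 1000) : 0 < phi t (2 / 3) 0 := by
  rw [phi_zero ht ht1 (by positivity) (by linarith)]
  have p1 : 0 < 1 / 5 - 2 / 3 * t := by linarith
  have p2 : 0 < 1 / 5 - t := by linarith
  have : Real.log ((9 / 5) * (9 / 5 + t) * (1 / 5 - 2 / 3 * t) ^ 2 /
        ((1 / 5) * (1 / 5 - t) * (9 / 5 + 2 / 3 * t) ^ 2)) ≤ 0 := by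
    refine Real.log_nonpos (by positivity) ?_
    rw [div_le_one (by positivity)]
    nlinarith [mul_pos ht ht, mul_pos (mul_pos ht ht) ht]
  linarith

lemma first_order {t : ℝ} (ht : 0 < t) (ht1 : t ≤ 1 / 1000) :
    4 / √(1 - (4 / 5 + t) ^ 2) + 2 < 2 * (1 / 2 + 9 / 20 * t) *
      (4 / √(1 - (4 / 5 + (1 / 2 + 9 / 20 * t) * t) ^ 2) + 2) := by
  have h1 : 1 / (5 / 3 + 15 / 4 * t) ≤ √(1 - (4 / 5 + t) ^ 2) := by
    apply Real.le_sqrt_of_sq_le
    rw [div_pow, div_le_iff₀ (by positivity)]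
    nlinarith [mul_pos ht ht, mul_pos (mul_pos ht ht) ht, mul_pos (mul_pos ht ht) (mul_pos ht ht)]
  have h2 : √(1 - (4 / 5 + (1 / 2 + 9 / 20 * t) * t) ^ 2) ≤ 1 / (5 / 3 + 50 / 27 * t) := by
    apply Real.sqrt_le_iff.2 ⟨by positivity, ?_⟩
    rw [div_pow, le_div_iff₀ (by positivity)]
    have : 1 - (4 / 5 + (1 / 2 + 9 / 20 * t) * t) ^ 2 ≤ 1 - (4 / 5 + 1 / 2 * t) ^ 2 := by
      nlinarith [mul_pos ht ht, mul_pos (mul_pos ht ht) ht, mul_pos (mul_pos ht ht) (mul_pos ht ht)]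
    refine (mul_le_mul_of_nonneg_right this (by positivity)).trans ?_
    nlinarith [mul_pos ht ht, mul_pos (mul_pos ht ht) ht, mul_pos (mul_pos ht ht) (mul_pos ht ht)]
  have h3 : 0 < √(1 - (4 / 5 + (1 / 2 + 9 / 20 * t) * t) ^ 2) :=
    Real.sqrt_pos.2 (by
      have k1 : 0 < (1 / 2 + 9 / 20 * t) * t := by positivity
      have k2 : (1 / 2 + 9 / 20 * t) * t ≤ 1 / 1000 := by nlinarith
      nlinarith)
  have h4 : 4 / √(1 - (4 / 5 + t) ^ 2) ≤ 4 * (5 / 3 + 15 / 4 * t) := by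
    refine (div_le_div_of_nonneg_left (by norm_num) (by positivity) h1).trans_eq ?_
    field_simp
  have h5 : 4 * (5 / 3 + 50 / 27 * t) ≤ 4 / √(1 - (4 / 5 + (1 / 2 + 9 / 20 * t) * t) ^ 2) := by
    refine le_trans (le_of_eq ?_) (div_le_div_of_nonneg_left (by norm_num) h3 h2)
    field_simp
  nlinarith [mul_pos ht ht]

lemma main {t : ℝ} (ht : 0 < t) (ht1 : t ≤ 1 / 1000) : ∀ᶠ s in 𝓝[>] (0:ℝ), ∃ θ ∈ Ioo (0:ℝ) 1,
    phi t θ s = 0 ∧ d (4 / 5 + t, s) (4 / 5 + t, -s) <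
      2 * d (4 / 5 + θ * t, θ * s) (4 / 5 + θ * t, -(θ * s)) := by
  set θ0 := 1 / 2 + 9 / 20 * t with hθ
  have t0 : 0 < θ0 := by positivity
  have t1 : θ0 < 2 / 3 := by linarith
  have cs : ∀ θ, 0 < θ → θ < 1 → ContinuousAt (fun s => phi t θ s) 0 := fun θ a b =>
    (phi_cont ht ht1 a b (s := 0) (by norm_num)).comp_of_eq (f := fun s : ℝ => (θ, s))
      (by fun_prop) rfl
  have e1 := (cs θ0 t0 (by linarith)).eventually (gt_mem_nhds (phi_neg ht ht1))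
  have e2 := (cs (2 / 3) (by norm_num) (by norm_num)).eventually (lt_mem_nhds (phi_pos ht ht1))
  set wb := √(1 - (4 / 5 + t) ^ 2) with hwb
  set wm := √(1 - (4 / 5 + θ0 * t) ^ 2) with hwm
  have b0 : 1 / 2 < wb := Real.lt_sqrt_of_sq_lt (by nlinarith)
  have m0 : 0 < wm := Real.sqrt_pos.2 (by
    have k1 : 0 < θ0 * t := by positivity
    have k2 : θ0 * t ≤ 1 / 1000 := by nlinarith
    nlinarith)
  have e3 : ∀ᶠ s in 𝓝 (0:ℝ), 4 / (wb - s) + 2 < 2 * θ0 * (4 / (wm + s) + 2) := by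
    have c1 : ContinuousAt (fun s : ℝ => 4 / (wb - s) + 2) 0 :=
      (continuousAt_const.div (by fun_prop) (by simp; linarith)).add continuousAt_const
    have c2 : ContinuousAt (fun s : ℝ => 2 * θ0 * (4 / (wm + s) + 2)) 0 :=
      continuousAt_const.mul ((continuousAt_const.div (by fun_prop)
        (by simp; linarith)).add continuousAt_const)
    exact c1.eventually_lt c2 (by simp only [sub_zero, add_zero]; exact first_order ht ht1)
  filter_upwards [nhdsWithin_le_nhds e1, nhdsWithin_le_nhds e2, nhdsWithin_le_nhds e3,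
    Ioo_mem_nhdsGT (by norm_num : (0:ℝ) < 1 / 2)] with s s1 s2 s3 hs
  have hc : ContinuousOn (fun θ => phi t θ s) (Icc θ0 (2 / 3)) := fun θ hθ =>
    ((phi_cont ht ht1 (t0.trans_le hθ.1) (by linarith [hθ.2]) (s := s)
      (by rw [abs_of_pos hs.1]; exact hs.2.le)).comp_of_eq (f := fun θ : ℝ => (θ, s))
      (by fun_prop) rfl).continuousWithinAt
  obtain ⟨θ, hθ1, hθ2⟩ := intermediate_value_Icc t1.le hc ⟨s1.le, s2.le⟩
  have p0 : 0 < θ := t0.trans_le hθ1.1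
  have p1 : θ < 1 := by linarith [hθ1.2]
  refine ⟨θ, ⟨p0, p1⟩, hθ2, ?_⟩
  have q0 : 0 < θ * s := mul_pos p0 hs.1
  have q1 : θ * s < s := by nlinarith [hs.1]
  have q2 : θ * t < t := by nlinarith
  have q3 : θ0 * t ≤ θ * t := by gcongr; exact hθ1.1
  set w := √(1 - (4 / 5 + θ * t) ^ 2) with hw
  have w0 : 1 / 2 < w := Real.lt_sqrt_of_sq_lt (by nlinarith [mul_pos p0 ht])
  have w1 : w ≤ wm := Real.sqrt_le_sqrt (by nlinarith [mul_pos t0 ht])
  have u1 : 0 < wb - s := by linarith [hs.2]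
  have u2 : 0 < w - θ * s := by linarith [hs.2]
  rw [d_vert hs.1 (by linarith), d_vert q0 (by linarith)]
  have l1 := Real.log_le_sub_one_of_pos (x := (wb + s) / (wb - s)) (by have := hs.1; positivity)
  have l2 := Real.one_sub_inv_le_log_of_pos (x := (w + θ * s) / (w - θ * s)) (by positivity)
  have v1 : (wb + s) / (wb - s) - 1 = s * (4 / (wb - s)) / 2 := by field_simp; ring
  have v2 : 1 - ((w + θ * s) / (w - θ * s))⁻¹ = θ * s * (4 / (w + θ * s)) / 2 := by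
    field_simp; ring
  have v3 : 4 / (wm + s) ≤ 4 / (w + θ * s) :=
    div_le_div_of_nonneg_left (by norm_num) (by positivity) (by linarith)
  have v4 : θ0 * (4 / (wm + s) + 2) ≤ θ * (4 / (w + θ * s) + 2) := by
    have := hs.1
    gcongr; exact hθ1.1
  have v5 := mul_lt_mul_of_pos_left s3 hs.1
  have v6 := mul_le_mul_of_nonneg_left v4 hs.1.le
  rw [v1] at l1
  rw [v2] at l2
  nlinarith

theorem result : ∃ o ∈ M, ∀ U ∈ 𝓝 o, ∃ x ∈ U ∩ M, ∃ y ∈ U ∩ M, ∃ z ∈ U ∩ M,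
    ∃ p ∈ openSegment ℝ x y, ∃ q ∈ openSegment ℝ x z,
      d x p = d p y ∧ d x q = d q z ∧ d y z < 2 * d p q := by
  have m1 : ((4 / 5, 0) : ℝ × ℝ) ∈ M := by simp [M]; norm_num
  refine ⟨(4 / 5, 0), m1, fun U hU => ?_⟩
  have hM : M ∈ 𝓝 ((4 / 5, 0) : ℝ × ℝ) :=
    (isOpen_lt (by fun_prop) continuous_const).mem_nhds m1
  obtain ⟨ε, hε, hb⟩ := Metric.mem_nhds_iff.1 (inter_mem hU hM)
  set t := min (ε / 2) (1 / 1000) with htd
  have ht : 0 < t := by positivity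
  have ht1 : t ≤ 1 / 1000 := min_le_right _ _
  have ht2 : t < ε := (min_le_left _ _).trans_lt (by linarith)
  obtain ⟨s, ⟨θ, hθ, h1, h2⟩, hs⟩ := ((main ht ht1).and (Ioo_mem_nhdsGT hε)).exists
  have hin : ∀ r : ℝ, |r| < ε → ((4 / 5 + t, r) : ℝ × ℝ) ∈ U ∩ M := fun r hr => hb (by
    simp [Prod.dist_eq, Real.dist_eq, abs_of_pos ht, ht2, hr])
  refine ⟨(4 / 5, 0), hb (Metric.mem_ball_self hε), (4 / 5 + t, s),
    hin s (by rw [abs_of_pos hs.1]; exact hs.2), (4 / 5 + t, -s),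
    hin _ (by rw [abs_neg, abs_of_pos hs.1]; exact hs.2), (4 / 5 + θ * t, θ * s),
    ⟨1 - θ, θ, by linarith [hθ.2], hθ.1, by ring, by ext <;> simp <;> ring⟩,
    (4 / 5 + θ * t, -(θ * s)),
    ⟨1 - θ, θ, by linarith [hθ.2], hθ.1, by ring, by ext <;> simp <;> ring⟩,
    sub_eq_zero.1 h1, ?_, h2⟩
  have := d_mirror (4 / 5) 0 (4 / 5 + θ * t) (θ * s)
  rw [neg_zero] at this
  rw [this, d_mirror]
  exact sub_eq_zero.1 h1

end Pool.Agent.Results.MP_b19ca0_gt.No
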